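import Mathlib

namespace Pool.Agent.H.MP_279ba3_co

open Set

universe u
variable {V : Type u}

structure Wit (G : SimpleGraph V) (k : ℕ) (A D : Set V) (P : V → Set V) : Prop where
  card : ∀ v, (P v).encard ≤ k
  up : ∀ v ∈ D, ∀ w ∈ A, G.Adj v w → w ∈ P v
  ins : ∀ v ∈ D, ∀ w ∈ D, G.Adj v w → w ∈ P v ∨ v ∈ P w
  wf : WellFounded (fun w v => w ∈ D ∧ v ∈ D ∧ w ∈ P v)

def Ordb (G : SimpleGraph V) (k : ℕ) (A D : Set V) : Prop := ∃ P, Wit G k A D P

def Rigid (G : SimpleGraph V) (k : ℕ) (A D : Set V) : Prop :=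
  ∀ G' ≤ G, Ordb G' (k + 1) A D → Ordb G' k A D

variable {G : SimpleGraph V} {k : ℕ} {A D : Set V} {P : V → Set V}

lemma Wit.fin (h : Wit G k A D P) (v : V) : (P v).Finite :=
  finite_of_encard_le_coe (h.card v)

lemma Wit.mono (h : Wit G k A D P) {G' : SimpleGraph V} {A' D' : Set V} (hA : A' ⊆ A)
    (hD : D' ⊆ D) (hG : ∀ v ∈ D', ∀ w, (w ∈ A' ∨ w ∈ D') → G'.Adj v w → G.Adj v w) :
    Wit G' k A' D' P where
  card := h.card
  up v hv w hw ha := h.up v (hD hv) w (hA hw) (hG v hv w (Or.inl hw) ha)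
  ins v hv w hw ha := h.ins v (hD hv) w (hD hw) (hG v hv w (Or.inr hw) ha)
  wf := Subrelation.wf (fun {_ _} hh => ⟨hD hh.1, hD hh.2.1, hh.2.2⟩) h.wf

lemma Ordb.mono (h : Ordb G k A D) {G' : SimpleGraph V} {A' D' : Set V} (hA : A' ⊆ A)
    (hD : D' ⊆ D) (hG : ∀ v ∈ D', ∀ w, (w ∈ A' ∨ w ∈ D') → G'.Adj v w → G.Adj v w) :
    Ordb G' k A' D' := let ⟨P, hP⟩ := h; ⟨P, hP.mono hA hD hG⟩

lemma Ordb.sub (h : Ordb G k A D) {A' D' : Set V} (hA : A' ⊆ A) (hD : D' ⊆ D) :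
    Ordb G k A' D' := h.mono hA hD (fun _ _ _ _ h => h)

lemma Wit.restr (h : Wit G k A D P) {E : Set V} (hE : E ⊆ D)
    (hc : ∀ v ∈ E, ∀ w ∈ D, w ∈ P v → w ∈ E) : Wit G k (A ∪ E) (D \ E) P where
  card := h.card
  up v hv w hw ha := by
    rcases hw with hw | hw
    · exact h.up v hv.1 w hw ha
    · rcases h.ins v hv.1 w (hE hw) ha with h1 | h1
      · exact h1
      · exact absurd (hc w hw v hv.1 h1) hv.2
  ins v hv w hw ha := h.ins v hv.1 w hw.1 ha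
  wf := Subrelation.wf (fun {_ _} hh => ⟨hh.1.1, hh.2.1.1, hh.2.2⟩) h.wf

lemma wit_bot (k : ℕ) (A D : Set V) : Wit (⊥ : SimpleGraph V) k A D (fun _ => ∅) where
  card v := by simp
  up v _ w _ ha := by simp at ha
  ins v _ w _ ha := by simp at ha
  wf := ⟨fun a => ⟨a, fun _ h => by simp at h⟩⟩

lemma wit_empty (G : SimpleGraph V) (k : ℕ) (A : Set V) : Wit G k A ∅ (fun _ => ∅) where
  card v := by simp
  up v hv := by simp at hv
  ins v hv := by simp at hv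
  wf := ⟨fun a => ⟨a, fun _ h => by simp at h⟩⟩

section glue
variable {W : Type*} [LinearOrder W] [WellFoundedLT W]

def low (B : W → Set V) (j : W) : Set V := {v | ∃ i, i < j ∧ v ∈ B i}

lemma exists_lvl [Nonempty W] (B : W → Set V) : ∃ lvl : V → W,
    (∀ v i, v ∈ B i → lvl v ≤ i) ∧ ∀ v ∈ ⋃ j, B j, v ∈ B (lvl v) \ low B (lvl v) := by
  classical
  have key : ∃ lvl : V → W, ∀ v i, v ∈ B i → v ∈ B (lvl v) ∧ lvl v ≤ i := by
    refine ⟨fun v => if h : {i | v ∈ B i}.Nonempty then wellFounded_lt.min _ h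
      else Classical.arbitrary W, ?_⟩
    intro v i hi
    have h : {i | v ∈ B i}.Nonempty := ⟨i, hi⟩
    simp only [dif_pos h]
    exact ⟨wellFounded_lt.min_mem _ h,
      not_lt.1 (wellFounded_lt.not_lt_min {i | v ∈ B i} hi)⟩
  obtain ⟨lvl, hl⟩ := key
  refine ⟨lvl, fun v i hi => (hl v i hi).2, fun v hv => ?_⟩
  obtain ⟨i, hi⟩ := mem_iUnion.1 hv
  refine ⟨(hl v i hi).1, ?_⟩
  rintro ⟨i', h1, h2⟩
  exact absurd (hl v i' h2).2 (not_le.2 h1)

lemma glue [Nonempty W] (B : W → Set V) (hA : ∀ j, ∀ v ∈ B j, v ∉ A) (Pj : W → V → Set V)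
    (h : ∀ j, Wit G k (A ∪ low B j) (B j \ low B j) (Pj j)) :
    ∃ P, Wit G k A (⋃ j, B j) P ∧ ∀ v, ∃ j, P v ⊆ Pj j v := by
  obtain ⟨lvl, hl, hb⟩ := exists_lvl B
  refine ⟨fun v => {w | w ∈ Pj (lvl v) v ∧ (w ∈ ⋃ j, B j → lvl w ≤ lvl v)}, ⟨?_, ?_, ?_, ?_⟩,
    fun v => ⟨lvl v, fun w hw => hw.1⟩⟩
  · intro v
    exact (encard_le_encard (fun w hw => hw.1)).trans ((h _).card v)
  · intro v hv w hw ha
    refine ⟨(h _).up v (hb v hv) w (Or.inl hw) ha, fun hw' => ?_⟩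
    obtain ⟨i, hi⟩ := mem_iUnion.1 hw'
    exact absurd hw (hA i w hi)
  · intro v hv w hw ha
    rcases lt_trichotomy (lvl w) (lvl v) with h1 | h1 | h1
    · exact Or.inl ⟨(h _).up v (hb v hv) w (Or.inr ⟨_, h1, (hb w hw).1⟩) ha, fun _ => h1.le⟩
    · have hw' := hb w hw
      rw [h1] at hw'
      rcases (h _).ins v (hb v hv) w hw' ha with h2 | h2
      · exact Or.inl ⟨h2, fun _ => h1.le⟩
      · exact Or.inr ⟨by rw [h1]; exact h2, fun _ => h1.ge⟩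
    · exact Or.inr ⟨(h _).up w (hb w hw) v (Or.inr ⟨_, h1, (hb v hv).1⟩) ha.symm,
        fun _ => h1.le⟩
  · have key : ∀ j, ∀ v, lvl v = j → Acc (fun w v => w ∈ ⋃ j, B j ∧ v ∈ ⋃ j, B j ∧
        w ∈ {w | w ∈ Pj (lvl v) v ∧ (w ∈ ⋃ j, B j → lvl w ≤ lvl v)}) v := by
      intro j
      induction j using WellFoundedLT.induction with
      | ind j ih =>
        intro v
        induction v using (h j).wf.induction with
        | _ v ih2 =>
          intro hv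
          refine ⟨_, fun w hw => ?_⟩
          obtain ⟨h1, h2, h3, h4⟩ := hw
          rcases (h4 h1).lt_or_eq with h5 | h5
          · exact ih _ (hv ▸ h5) w rfl
          · have a1 := hb w h1
            have a2 := hb v h2
            rw [h5, hv] at a1
            rw [hv] at a2 h3
            exact ih2 w ⟨a1, a2, h3⟩ (h5.trans hv)
    exact ⟨fun v => key _ v rfl⟩

lemma glueO [Nonempty W] (B : W → Set V) (hA : ∀ j, ∀ v ∈ B j, v ∉ A)
    (h : ∀ j, Ordb G k (A ∪ low B j) (B j \ low B j)) : Ordb G k A (⋃ j, B j) := by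
  choose Pj hP using h
  obtain ⟨P, h1, -⟩ := glue B hA Pj hP
  exact ⟨P, h1⟩

lemma glueG [Nonempty W] (B : W → Set V) (Gj : W → SimpleGraph V) (hG : ∀ j, Gj j ≤ G) :
    ∃ G' ≤ G, ∀ j, ∀ v ∈ B j \ low B j, ∀ w, (w ∈ ⋃ j, B j → w ∈ low B j ∨ w ∈ B j) →
      (G'.Adj v w ↔ (Gj j).Adj v w) := by
  obtain ⟨lvl, hl, hb⟩ := exists_lvl B
  let X : V → V → Prop := fun v w =>
    v ∈ ⋃ j, B j ∧ (w ∈ ⋃ j, B j → lvl w ≤ lvl v) ∧ (Gj (lvl v)).Adj v w
  refine ⟨⟨fun v w => X v w ∨ X w v, ⟨fun v w h => h.symm⟩, ⟨fun v h => ?_⟩⟩, ?_, ?_⟩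
  · rcases h with h | h <;> exact (Gj _).irrefl h.2.2
  · intro v w h
    rcases h with h | h
    · exact hG _ h.2.2
    · exact (hG _ h.2.2).symm
  · intro j v hv w hw
    have hv1 : v ∈ ⋃ j, B j := mem_iUnion.2 ⟨j, hv.1⟩
    have e : lvl v = j := by
      rcases (hl v j hv.1).lt_or_eq with h | h
      · exact absurd ⟨_, h, (hb v hv1).1⟩ hv.2
      · exact h
    have hw2 : w ∈ ⋃ j, B j → lvl w ≤ j := by
      intro h
      rcases hw h with ⟨i, h1, h2⟩ | h1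
      · exact (hl w i h2).trans h1.le
      · exact hl w j h1
    constructor
    · rintro (h | h)
      · exact e ▸ h.2.2
      · have : lvl w = j := le_antisymm (hw2 h.1) (e ▸ h.2.1 hv1)
        exact (this ▸ h.2.2).symm
    · intro h
      exact Or.inl ⟨hv1, fun h => e ▸ hw2 h, by rw [e]; exact h⟩

/-- combined form: glue subgraphs and their witnesses -/
lemma glueR [Nonempty W] (B : W → Set V) (hA : ∀ j, ∀ v ∈ B j, v ∉ A)
    (Gj : W → SimpleGraph V) (hG : ∀ j, Gj j ≤ G)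
    (h : ∀ j, Ordb (Gj j) k (A ∪ low B j) (B j \ low B j)) :
    ∃ G' ≤ G, Ordb G' k A (⋃ j, B j) ∧ ∀ j, ∀ v ∈ B j \ low B j, ∀ w,
      (w ∈ A ∨ w ∈ low B j ∨ w ∈ B j) → (Gj j).Adj v w → G'.Adj v w := by
  obtain ⟨G', h1, h2⟩ := glueG B Gj hG
  have h3 : ∀ j, ∀ v ∈ B j \ low B j, ∀ w, (w ∈ A ∨ w ∈ low B j ∨ w ∈ B j) →
      (G'.Adj v w ↔ (Gj j).Adj v w) := by
    intro j v hv w hw
    refine h2 j v hv w (fun hw' => ?_)
    rcases hw with hw | hw
    · obtain ⟨i, hi⟩ := mem_iUnion.1 hw'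
      exact absurd hw (hA i w hi)
    · exact hw
  refine ⟨G', h1, glueO B hA (fun j => (h j).mono le_rfl le_rfl ?_),
    fun j v hv w hw => (h3 j v hv w hw).2⟩
  intro v hv w hw
  refine (h3 j v hv w ?_).1
  rcases hw with (hw | hw) | hw
  · exact Or.inl hw
  · exact Or.inr (Or.inl hw)
  · exact Or.inr (Or.inr hw.1)

end glue

lemma low_nat (Y : ℕ → Set V) (hm : ∀ n, Y n ⊆ Y (n + 1)) (n : ℕ) : low Y (n + 1) = Y n := by
  have hmono : Monotone Y := monotone_nat_of_le_succ hm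
  ext v
  constructor
  · rintro ⟨i, h1, h2⟩
    exact hmono (Nat.lt_succ_iff.1 h1) h2
  · intro h
    exact ⟨n, Nat.lt_succ_self n, h⟩

lemma low_zero (Y : ℕ → Set V) : low Y 0 = ∅ := by
  ext v; simp [low]

lemma Rigid.sub (h : Rigid G k A D) (hd : Disjoint A D) {D' : Set V} (hD : D' ⊆ D) :
    Rigid G k A D' := by
  rintro G' hG ⟨P, hP⟩
  let X : V → V → Prop := fun v w => v ∈ D' ∧ (w ∈ A ∨ w ∈ D') ∧ G'.Adj v w
  let G2 : SimpleGraph V := ⟨fun v w => X v w ∨ X w v, ⟨fun v w h => h.symm⟩,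
    ⟨fun v h => by rcases h with h | h <;> exact G'.irrefl h.2.2⟩⟩
  have h1 : G2 ≤ G := by
    intro v w h
    rcases h with h | h
    · exact hG h.2.2
    · exact (hG h.2.2).symm
  have nd : ∀ w ∈ A, w ∉ D := fun w hw => disjoint_left.1 hd hw
  have h2 : Ordb G2 (k + 1) A D := by
    refine ⟨fun v => {w | w ∈ P v ∧ v ∈ D' ∧ (w ∈ D → w ∈ D')}, ?_, ?_, ?_, ?_⟩
    · intro v
      exact (encard_le_encard (fun w hw => hw.1)).trans (hP.card v)
    · intro v hv w hw ha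
      rcases ha with ha | ha
      · exact ⟨hP.up v ha.1 w hw ha.2.2, ha.1, fun h => absurd h (nd w hw)⟩
      · exact absurd (hD ha.1) (nd w hw)
    · intro v hv w hw ha
      have : v ∈ D' ∧ w ∈ D' ∧ G'.Adj v w := by
        rcases ha with ha | ha
        · exact ⟨ha.1, ha.2.1.resolve_left (fun h => nd w h hw), ha.2.2⟩
        · exact ⟨ha.2.1.resolve_left (fun h => nd v h hv), ha.1, ha.2.2.symm⟩
      rcases hP.ins v this.1 w this.2.1 this.2.2 with h | h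
      · exact Or.inl ⟨h, this.1, fun _ => this.2.1⟩
      · exact Or.inr ⟨h, this.2.1, fun _ => this.1⟩
    · exact Subrelation.wf (fun {_ _} hh => ⟨hh.2.2.2.2 hh.1, hh.2.2.2.1, hh.2.2.1⟩) hP.wf
  exact (h G2 h1 h2).mono le_rfl hD (fun v hv w hw ha => Or.inl ⟨hv, hw, ha⟩)

lemma add_edge (h : Ordb G k A D) (hd : Disjoint A D) (u v : V) {G' : SimpleGraph V}
    (hG : ∀ x y, G'.Adj x y → G.Adj x y ∨ (x = u ∧ y = v) ∨ (x = v ∧ y = u)) :
    Ordb G' (k + 1) A D := by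
  obtain ⟨P, hP⟩ := h
  haveI : IsWellFounded V (fun w v => w ∈ D ∧ v ∈ D ∧ w ∈ P v) := ⟨hP.wf⟩
  obtain ⟨s, hs, hw⟩ := IsWellFounded.exists_well_order_ge (fun w v => w ∈ D ∧ v ∈ D ∧ w ∈ P v)
  refine ⟨fun x => P x ∪ {y | ((x = u ∧ y = v) ∨ (x = v ∧ y = u)) ∧ (y ∈ D → s y x)},
    ?_, ?_, ?_, ?_⟩
  · intro x
    refine (encard_union_le _ _).trans ?_
    push_cast
    refine add_le_add (hP.card x) (encard_le_one_iff.2 ?_)
    rintro a b ⟨ha, -⟩ ⟨hb, -⟩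
    rcases ha with ⟨h1, h2⟩ | ⟨h1, h2⟩ <;> rcases hb with ⟨h3, h4⟩ | ⟨h3, h4⟩ <;> simp_all
  · intro x hx y hy ha
    rcases hG x y ha with h | h
    · exact Or.inl (hP.up x hx y hy h)
    · exact Or.inr ⟨h, fun h => absurd h (disjoint_left.1 hd hy)⟩
  · intro x hx y hy ha
    rcases hG x y ha with h | h
    · rcases hP.ins x hx y hy h with h | h
      · exact Or.inl (Or.inl h)
      · exact Or.inr (Or.inl h)
    · rcases trichotomous_of s y x with h1 | h1 | h1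
      · exact Or.inl (Or.inr ⟨h, fun _ => h1⟩)
      · exact absurd h1.symm ha.ne
      · refine Or.inr (Or.inr ⟨?_, fun _ => h1⟩)
        tauto
  · refine Subrelation.wf (fun {a b} hh => ?_) hw.wf
    rcases hh.2.2 with h | h
    · exact hs a b ⟨hh.1, hh.2.1, h⟩
    · exact h.2 hh.1

lemma Rigid.fin_edges (h : Rigid G k A D) (hd : Disjoint A D) (F : Set (V × V)) (hF : F.Finite) :
    ∀ G' ≤ G, (∀ v w, G'.Adj v w → (v, w) ∈ F ∨ (w, v) ∈ F) → Ordb G' k A D := by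
  induction F, hF using Set.Finite.induction_on with
  | empty =>
    intro G' _ h2
    exact ⟨_, (wit_bot k A D).mono le_rfl le_rfl (fun v _ w _ ha => by simpa using h2 v w ha)⟩
  | @insert e F _ _ ih =>
    intro G' h1 h2
    obtain ⟨u, v⟩ := e
    let G2 : SimpleGraph V := ⟨fun x y => G'.Adj x y ∧ ¬ ((x = u ∧ y = v) ∨ (x = v ∧ y = u)),
      ⟨fun x y h => ⟨h.1.symm, by have := h.2; tauto⟩⟩, ⟨fun x h => G'.irrefl h.1⟩⟩
    have h3 : Ordb G2 k A D := by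
      refine ih G2 (fun x y h => h1 h.1) (fun x y h => ?_)
      have a := h2 x y h.1
      have b := h.2
      simp only [mem_insert_iff, Prod.mk.injEq] at a
      tauto
    refine h G' h1 (add_edge h3 hd u v (fun x y ha => ?_))
    by_cases hh : (x = u ∧ y = v) ∨ (x = v ∧ y = u)
    · exact Or.inr hh
    · exact Or.inl ⟨ha, hh⟩

lemma Rigid.ord_fin (h : Rigid G k A D) (hd : Disjoint A D) (hD : D.Finite) : Ordb G k A D := by
  have h1 : ∀ v ∈ D, {w | w ∈ A ∧ G.Adj v w}.Finite := by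
    intro v hv
    by_contra hi
    obtain ⟨S, hS, hc⟩ := Set.Infinite.exists_subset_card_eq hi (k + 1)
    let G2 : SimpleGraph V := ⟨fun x y => G.Adj x y ∧ ((x = v ∧ y ∈ S) ∨ (y = v ∧ x ∈ S)),
      ⟨fun x y h => ⟨h.1.symm, h.2.symm⟩⟩, ⟨fun x h => G.irrefl h.1⟩⟩
    obtain ⟨P, hP⟩ := h.fin_edges hd ((fun w => (v, w)) '' S) (S.finite_toSet.image _) G2
      (fun x y h => h.1) (by
        rintro x y ⟨-, ⟨rfl, h⟩ | ⟨rfl, h⟩⟩
        · exact Or.inl ⟨y, h, rfl⟩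
        · exact Or.inr ⟨x, h, rfl⟩)
    have : (S : Set V) ⊆ P v := fun w hw =>
      hP.up v hv w (hS hw).1 ⟨(hS hw).2, Or.inl ⟨rfl, hw⟩⟩
    have h2 := (encard_le_encard this).trans (hP.card v)
    rw [encard_coe_eq_coe_finsetCard, hc] at h2
    have : k + 1 ≤ k := by exact_mod_cast h2
    omega
  let X : V → V → Prop := fun v w => v ∈ D ∧ (w ∈ A ∨ w ∈ D) ∧ G.Adj v w
  let G2 : SimpleGraph V := ⟨fun v w => X v w ∨ X w v, ⟨fun v w h => h.symm⟩,
    ⟨fun v h => by rcases h with h | h <;> exact G.irrefl h.2.2⟩⟩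
  have hF : {p : V × V | X p.1 p.2}.Finite := by
    refine (hD.biUnion (t := fun v => (fun w => (v, w)) '' ({w | w ∈ A ∧ G.Adj v w} ∪ D))
      (fun v hv => ((h1 v hv).union hD).image _)).subset ?_
    rintro ⟨v, w⟩ ⟨a, b, c⟩
    simp only [mem_iUnion]
    refine ⟨v, a, w, ?_, rfl⟩
    rcases b with b | b
    · exact Or.inl ⟨b, c⟩
    · exact Or.inr b
  refine (h.fin_edges hd _ hF G2 ?_ (fun v w h => h)).mono le_rfl le_rfl
    (fun v hv w hw ha => Or.inl ⟨hv, hw, ha⟩)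
  intro v w h
  rcases h with h | h
  · exact h.2.2
  · exact h.2.2.symm

end Pool.Agent.H.MP_279ba3_co
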