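import Pool.Agent.H.MP_279ba3_co.A

namespace Pool.Agent.H.MP_279ba3_co

open Set

universe u
variable {V : Type u} {G : SimpleGraph V} {k : ℕ} {A D : Set V} {P : V → Set V}

def Core (G : SimpleGraph V) (k : ℕ) (A C : Set V) : Prop :=
  ∀ v ∈ C, (k : ℕ∞) < {w | (w ∈ A ∨ w ∈ C) ∧ G.Adj v w}.encard

lemma ord_insert (hd : Disjoint A D) {v : V} (hv : v ∈ D)
    (hc : {w | (w ∈ A ∨ w ∈ D) ∧ G.Adj v w}.encard ≤ k) (h : Ordb G k A (D \ {v})) :
    Ordb G k A D := by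
  let B : ℕ → Set V := fun n => if n = 0 then D \ {v} else D
  have hm : ∀ n, B n ⊆ B (n + 1) := by
    intro n
    by_cases hn : n = 0 <;> simp [B, hn]
  have hU : (⋃ n, B n) = D := by
    apply subset_antisymm
    · refine iUnion_subset (fun n => ?_)
      by_cases hn : n = 0 <;> simp [B, hn]
    · exact subset_iUnion_of_subset 1 (by simp [B])
  rw [← hU]
  refine glueO B (fun j w hw => disjoint_right.1 hd (hU ▸ mem_iUnion.2 ⟨j, hw⟩)) (fun j => ?_)
  rcases j with _ | _ | j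
  · rw [low_zero]
    simpa [B] using h
  · rw [low_nat B hm]
    have : B (0 + 1) \ B 0 = {v} := by
      ext x
      simp only [B, if_true, zero_add, one_ne_zero, if_false, mem_diff, mem_singleton_iff]
      constructor
      · rintro ⟨a, b⟩
        by_contra c
        exact b ⟨a, c⟩
      · rintro rfl
        exact ⟨hv, fun h => h.2 rfl⟩
    rw [this]
    refine ⟨fun _ => {w | (w ∈ A ∨ w ∈ D \ {v}) ∧ G.Adj v w}, fun _ => ?_, ?_, ?_, ?_⟩
    · refine (encard_le_encard ?_).trans hc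
      rintro w ⟨a | a, b⟩
      · exact ⟨Or.inl a, b⟩
      · exact ⟨Or.inr a.1, b⟩
    · rintro x rfl w hw ha
      exact ⟨by simpa [B] using hw, ha⟩
    · rintro x rfl w rfl ha
      exact absurd ha G.irrefl
    · refine ⟨fun a => ⟨a, fun y hy => ?_⟩⟩
      obtain ⟨rfl, -, h3⟩ := hy
      exact absurd h3.2 G.irrefl
  · rw [low_nat B hm]
    have : B (j + 1 + 1) \ B (j + 1) = ∅ := by simp [B]
    rw [this]
    exact ⟨_, wit_empty _ _ _⟩

lemma exists_core : ∀ n, ∀ D : Set V, D.Finite → D.ncard = n → Disjoint A D →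
    ¬ Ordb G k A D → ∃ C ⊆ D, C.Nonempty ∧ Core G k A C := by
  intro n
  induction n with
  | zero =>
    intro D h1 h2 _ h4
    rw [ncard_eq_zero h1] at h2
    subst h2
    exact absurd ⟨_, wit_empty _ _ _⟩ h4
  | succ n ih =>
    intro D h1 h2 h3 h4
    by_cases hc : Core G k A D
    · exact ⟨D, le_rfl, nonempty_of_ncard_ne_zero (by omega), hc⟩
    · simp only [Core, not_forall, not_lt] at hc
      obtain ⟨v, hv, hc⟩ := hc
      obtain ⟨C, a, b, c⟩ := ih (D \ {v}) (h1.subset diff_subset)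
        (by rw [ncard_diff_singleton_of_mem hv]; omega) (h3.mono_right diff_subset)
        (fun h => h4 (ord_insert h3 hv hc h))
      exact ⟨C, a.trans diff_subset, b, c⟩

lemma Core.not_ord {C : Set V} (h : Core G k A C) (hf : C.Finite) (hn : C.Nonempty) :
    ¬ Ordb G k A C := by
  rintro ⟨P, hP⟩
  haveI : IsWellFounded V (fun w v => w ∈ C ∧ v ∈ C ∧ w ∈ P v) := ⟨hP.wf⟩
  obtain ⟨v, hv, hmax⟩ := Set.exists_max_image C
    (IsWellFounded.rank (fun w v => w ∈ C ∧ v ∈ C ∧ w ∈ P v)) hf hn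
  have : {w | (w ∈ A ∨ w ∈ C) ∧ G.Adj v w} ⊆ P v := by
    rintro w ⟨a | a, b⟩
    · exact hP.up v hv w a b
    · rcases hP.ins v hv w a b with h1 | h1
      · exact h1
      · have := IsWellFounded.rank_lt_of_rel
          (r := fun w v => w ∈ C ∧ v ∈ C ∧ w ∈ P v) (a := v) (b := w) ⟨hv, a, h1⟩
        exact absurd (hmax w a) (not_le.2 this)
  exact absurd ((encard_le_encard this).trans (hP.card v)) (not_le.2 (h v hv))

lemma Wit.closure (h : Wit G k A D P) {X : Set V} (hX : X ⊆ D) (hf : X.Finite) :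
    ∃ E, E.Finite ∧ X ⊆ E ∧ E ⊆ D ∧ ∀ v ∈ E, ∀ w ∈ D, w ∈ P v → w ∈ E := by
  have key : ∀ v, v ∈ D → ∃ E : Set V, E.Finite ∧ v ∈ E ∧ E ⊆ D ∧
      ∀ v ∈ E, ∀ w ∈ D, w ∈ P v → w ∈ E := by
    intro v
    induction v using h.wf.induction with
    | _ v ih =>
      intro hv
      have : ∀ w : (P v ∩ D : Set V), ∃ E : Set V, E.Finite ∧ w.1 ∈ E ∧ E ⊆ D ∧
        ∀ v ∈ E, ∀ w ∈ D, w ∈ P v → w ∈ E := fun w => ih w ⟨w.2.2, hv, w.2.1⟩ w.2.2
      choose E h1 h2 h3 h4 using this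
      haveI : Finite (P v ∩ D : Set V) := ((h.fin v).inter_of_left D).to_subtype
      refine ⟨insert v (⋃ w, E w), (finite_iUnion h1).insert v, mem_insert _ _,
        insert_subset hv (iUnion_subset h3), ?_⟩
      rintro x (rfl | hx) w hw hp
      · exact Or.inr (mem_iUnion.2 ⟨⟨w, hp, hw⟩, h2 _⟩)
      · obtain ⟨y, hy⟩ := mem_iUnion.1 hx
        exact Or.inr (mem_iUnion.2 ⟨y, h4 y x hy w hw hp⟩)
  choose E h1 h2 h3 h4 using (fun v : X => key v (hX v.2))
  haveI : Finite X := hf.to_subtype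
  refine ⟨⋃ v, E v, finite_iUnion h1, fun v hv => mem_iUnion.2 ⟨⟨v, hv⟩, h2 _⟩,
    iUnion_subset h3, ?_⟩
  intro x hx w hw hp
  obtain ⟨y, hy⟩ := mem_iUnion.1 hx
  exact mem_iUnion.2 ⟨y, h4 y x hy w hw hp⟩

lemma disj_rel (hd : Disjoint A D) {Y Z : Set V} (hZ : Z ⊆ D) : Disjoint (A ∪ Y) (Z \ Y) := by
  rw [disjoint_left]
  rintro x (h | h) h2
  · exact disjoint_left.1 hd h (hZ h2.1)
  · exact h2.2 h

lemma sc_fin (h : Rigid G k A D) (hd : Disjoint A D) {X : Set V} (hX : X ⊆ D) (hf : X.Finite) :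
    ∃ Y, Y.Finite ∧ X ⊆ Y ∧ Y ⊆ D ∧ ∀ Z, Z.Finite → Z ⊆ D → Ordb G k (A ∪ Y) (Z \ Y) := by
  by_contra hcon
  push Not at hcon
  have step : ∀ Y : Set V, ∃ C : Set V, ∃ G' ≤ G, Y.Finite → X ⊆ Y → Y ⊆ D →
      C.Finite ∧ C.Nonempty ∧ C ⊆ D \ Y ∧ Ordb G' (k + 1) (A ∪ Y) C ∧ Core G' k (A ∪ Y) C := by
    intro Y
    by_cases hY : Y.Finite ∧ X ⊆ Y ∧ Y ⊆ D
    · obtain ⟨Z, z1, z2, z3⟩ := hcon Y hY.1 hY.2.1 hY.2.2
      have hd' : Disjoint (A ∪ Y) (Z \ Y) := disj_rel hd z2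
      have : ¬ Rigid G k (A ∪ Y) (Z \ Y) := fun hr => z3 (hr.ord_fin hd' (z1.subset diff_subset))
      simp only [Rigid, not_forall] at this
      obtain ⟨G', g1, g2, g3⟩ := this
      obtain ⟨C, c1, c2, c3⟩ := exists_core _ _ (z1.subset diff_subset) rfl hd' g3
      exact ⟨C, G', g1, fun _ _ _ => ⟨(z1.subset diff_subset).subset c1, c2,
        c1.trans (diff_subset_diff_left z2), g2.sub le_rfl c1, c3⟩⟩
    · exact ⟨∅, ⊥, bot_le, fun a b c => absurd ⟨a, b, c⟩ hY⟩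
  choose C Gy hG hC using step
  let Y : ℕ → Set V := fun n => Nat.rec X (fun _ Y => Y ∪ C Y) n
  have Y0 : Y 0 = X := rfl
  have Ys : ∀ n, Y (n + 1) = Y n ∪ C (Y n) := fun n => rfl
  have inv : ∀ n, (Y n).Finite ∧ X ⊆ Y n ∧ Y n ⊆ D ∧ n ≤ (Y n).ncard := by
    intro n
    induction n with
    | zero => exact ⟨hf, le_rfl, hX, Nat.zero_le _⟩
    | succ n ih =>
      obtain ⟨a, b, c, d⟩ := ih
      obtain ⟨c1, c2, c3, -, -⟩ := hC _ a b c
      rw [Ys]
      refine ⟨a.union c1, b.trans subset_union_left, union_subset c (c3.trans diff_subset), ?_⟩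
      obtain ⟨x, hx⟩ := c2
      have : Y n ⊂ Y n ∪ C (Y n) :=
        ⟨subset_union_left, fun hh => (c3 hx).2 (hh (Or.inr hx))⟩
      have := ncard_lt_ncard this (a.union c1)
      omega
  have hm : ∀ n, Y n ⊆ Y (n + 1) := fun n => subset_union_left
  have blk : ∀ n, Y (n + 1) \ Y n = C (Y n) := by
    intro n
    obtain ⟨a, b, c, d⟩ := inv n
    obtain ⟨-, -, c3, -, -⟩ := hC _ a b c
    rw [Ys]
    ext x
    constructor
    · rintro ⟨h1 | h1, h2⟩
      · exact absurd h1 h2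
      · exact h1
    · intro h1
      exact ⟨Or.inr h1, (c3 h1).2⟩
  have hU : (⋃ n, Y n) ⊆ D := iUnion_subset (fun n => (inv n).2.2.1)
  obtain ⟨G', g1, g2, g3⟩ := glueR (G := G) (k := k + 1) (A := A) Y
    (fun j v hv => disjoint_right.1 hd ((inv j).2.2.1 hv))
    (fun n => Nat.rec ⊥ (fun m _ => Gy (Y m)) n)
    (fun n => by cases n; exacts [bot_le, hG _])
    (fun n => by
      cases n with
      | zero => exact ⟨_, wit_bot _ _ _⟩
      | succ n =>
        obtain ⟨a, b, c, d⟩ := inv n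
        rw [low_nat Y hm, blk]
        exact (hC _ a b c).2.2.2.1)
  obtain ⟨P, hP⟩ := h.sub hd hU G' g1 g2
  obtain ⟨E, e1, e2, e3, e4⟩ := hP.closure (subset_iUnion Y 0) hf
  have hex : ∃ n, ¬ Y n ⊆ E := by
    refine ⟨E.ncard + 1, fun hh => ?_⟩
    have := ncard_le_ncard hh e1
    have := (inv (E.ncard + 1)).2.2.2
    omega
  classical
  obtain ⟨n, hn⟩ : ∃ n, Nat.find hex = n + 1 := by
    apply Nat.exists_eq_succ_of_ne_zero
    intro h0
    have := Nat.find_spec hex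
    rw [h0] at this
    exact this e2
  have n1 : ¬ Y (n + 1) ⊆ E := hn ▸ Nat.find_spec hex
  have n2 : Y n ⊆ E := by
    by_contra hh
    have := Nat.find_min' hex hh
    omega
  obtain ⟨a, b, c, d⟩ := inv n
  obtain ⟨c1, c2, c3, c4, c5⟩ := hC _ a b c
  have hne : (C (Y n) \ E).Nonempty := by
    by_contra hh
    rw [not_nonempty_iff_eq_empty, diff_eq_empty] at hh
    exact n1 (union_subset n2 hh)
  have hsub : C (Y n) ⊆ ⋃ n, Y n := subset_iUnion_of_subset (n + 1) subset_union_right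
  refine Core.not_ord (G := G') (k := k) (A := A ∪ E) ?_ (c1.subset diff_subset) hne
    ⟨P, (hP.restr e3 e4).mono le_rfl (diff_subset_diff_left hsub) (fun _ _ _ _ h => h)⟩
  intro v hv
  refine (c5 v hv.1).trans_le (encard_le_encard ?_)
  rintro w ⟨h1, h2⟩
  refine ⟨?_, g3 (n + 1) v (by rw [low_nat Y hm, blk]; exact hv.1) w ?_ h2⟩
  · rcases h1 with (h1 | h1) | h1
    · exact Or.inl (Or.inl h1)
    · exact Or.inl (Or.inr (n2 h1))
    · by_cases h3 : w ∈ E
      · exact Or.inl (Or.inr h3)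
      · exact Or.inr ⟨h1, h3⟩
  · rcases h1 with (h1 | h1) | h1
    · exact Or.inl h1
    · exact Or.inr (Or.inr (Or.inl h1))
    · exact Or.inr (Or.inr (Or.inr h1))

lemma Rigid.ord_countable (h : Rigid G k A D) (hd : Disjoint A D) (hD : D.Countable) :
    Ordb G k A D := by
  rcases D.eq_empty_or_nonempty with rfl | hne
  · exact ⟨_, wit_empty _ _ _⟩
  obtain ⟨e, he⟩ := hD.exists_eq_range hne
  have step : ∀ X : Set V, ∃ Y : Set V, X ⊆ D → X.Finite →
      Y.Finite ∧ X ⊆ Y ∧ Y ⊆ D ∧ ∀ Z, Z.Finite → Z ⊆ D → Ordb G k (A ∪ Y) (Z \ Y) := by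
    intro X
    by_cases hX : X ⊆ D ∧ X.Finite
    · obtain ⟨Y, hY⟩ := sc_fin h hd hX.1 hX.2
      exact ⟨Y, fun _ _ => hY⟩
    · exact ⟨∅, fun a b => absurd ⟨a, b⟩ hX⟩
  choose sc hsc using step
  let Y : ℕ → Set V := fun n => Nat.rec (sc ∅) (fun m Y => sc (insert (e m) Y)) n
  have Ys : ∀ n, Y (n + 1) = sc (insert (e n) (Y n)) := fun n => rfl
  have eD : ∀ n, e n ∈ D := fun n => he ▸ mem_range_self n
  have inv : ∀ n, (Y n).Finite ∧ Y n ⊆ D ∧
      ∀ Z, Z.Finite → Z ⊆ D → Ordb G k (A ∪ Y n) (Z \ Y n) := by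
    intro n
    induction n with
    | zero =>
      obtain ⟨a, -, b, c⟩ := hsc ∅ (empty_subset _) finite_empty
      exact ⟨a, b, c⟩
    | succ n ih =>
      obtain ⟨a, -, b, c⟩ := hsc (insert (e n) (Y n)) (insert_subset (eD n) ih.2.1)
        (ih.1.insert _)
      exact ⟨a, b, c⟩
  have hm : ∀ n, insert (e n) (Y n) ⊆ Y (n + 1) := fun n =>
    (hsc (insert (e n) (Y n)) (insert_subset (eD n) (inv n).2.1) ((inv n).1.insert _)).2.1
  have hm' : ∀ n, Y n ⊆ Y (n + 1) := fun n => (subset_insert _ _).trans (hm n)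
  have := glueO (G := G) (k := k) (A := A) Y
    (fun j v hv => disjoint_right.1 hd ((inv j).2.1 hv)) (fun n => by
      cases n with
      | zero =>
        rw [low_zero]
        simpa using (h.sub hd (inv 0).2.1).ord_fin (hd.mono_right (inv 0).2.1) (inv 0).1
      | succ n =>
        rw [low_nat Y hm']
        exact (inv n).2.2 _ (inv (n + 1)).1 (inv (n + 1)).2.1)
  refine this.sub le_rfl (fun v hv => ?_)
  rw [he] at hv
  obtain ⟨n, rfl⟩ := hv
  exact mem_iUnion.2 ⟨n + 1, hm n (mem_insert _ _)⟩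

end Pool.Agent.H.MP_279ba3_co
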