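import Pool.Agent.H.MP_279ba3_co.B

namespace Pool.Agent.H.MP_279ba3_co

open Set Cardinal

universe u
variable {V : Type u} {G : SimpleGraph V} {k : ℕ} {A D : Set V} {P : V → Set V}

section club
variable {W : Type u} [LinearOrder W] [WellFoundedLT W]

/-- small sets are strictly bounded -/
def SB (W : Type u) [LinearOrder W] : Prop := ∀ S : Set W, #S < #W → ∃ b, ∀ x ∈ S, x < b

def Cl (g : W → W) (c : W) : Prop := ∀ x, x < c → g x ≤ c

lemma club (hb : SB W) (hu : ℵ₀ < #W) (hs : ∀ a : W, #(Iic a) < #W) (g : W → W) (a : W) :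
    ∃ c, a < c ∧ Cl g c := by
  have step : ∀ a : W, ∃ b, a < b ∧ ∀ x ≤ a, g x < b := by
    intro a
    obtain ⟨b, h⟩ := hb (insert a (g '' Iic a)) (by
      refine mk_insert_le.trans_lt (add_lt_of_lt hu.le (mk_image_le.trans_lt (hs a)) ?_)
      exact one_lt_aleph0.trans hu)
    exact ⟨b, h a (mem_insert _ _), fun x hx => h _ (Or.inr ⟨x, hx, rfl⟩)⟩
  choose f f1 f2 using step
  let s : ℕ → W := fun n => f^[n] a
  have ss : ∀ n, s (n + 1) = f (s n) := fun n => Function.iterate_succ_apply' f n a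
  obtain ⟨b, hb'⟩ := hb (range s) ((countable_range s).le_aleph0.trans_lt hu)
  have hne : {b | ∀ n, s n < b}.Nonempty := ⟨b, fun n => hb' _ ⟨n, rfl⟩⟩
  refine ⟨wellFounded_lt.min _ hne, wellFounded_lt.min_mem _ hne 0, fun x hx => ?_⟩
  have h1 : ¬ ∀ n, s n < x := fun h => wellFounded_lt.not_lt_min {b | ∀ n, s n < b} h hx
  push Not at h1
  obtain ⟨n, hn⟩ := h1
  exact ((f2 _ x hn).trans (ss n ▸ wellFounded_lt.min_mem _ hne (n + 1))).le

lemma prev (g : W → W) (j : W) :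
    ∃ c, Cl g c ∧ c ≤ j ∧ ∀ x, x < c ↔ ∃ i, i < j ∧ Cl g i ∧ x < i := by
  have hne : {x | ¬ ∃ i, i < j ∧ Cl g i ∧ x < i}.Nonempty :=
    ⟨j, fun ⟨i, a, _, b⟩ => absurd (a.trans b) (lt_irrefl _)⟩
  have h1 := wellFounded_lt.min_mem _ hne
  have h2 : ∀ x, x < wellFounded_lt.min _ hne → ∃ i, i < j ∧ Cl g i ∧ x < i := by
    intro x hx
    by_contra hh
    exact wellFounded_lt.not_lt_min {x | ¬ ∃ i, i < j ∧ Cl g i ∧ x < i} hh hx
  have h3 : ∀ i, i < j → Cl g i → i ≤ wellFounded_lt.min _ hne := by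
    intro i a b
    by_contra hh
    exact h1 ⟨i, a, b, not_le.1 hh⟩
  refine ⟨_, fun x hx => ?_, ?_, fun x => ⟨h2 x, fun ⟨i, a, b, c⟩ => c.trans_le (h3 i a b)⟩⟩
  · obtain ⟨i, a, b, c⟩ := h2 x hx
    exact (b x c).trans (h3 i a b)
  · by_contra hh
    obtain ⟨i, a, -, c⟩ := h2 j (not_le.1 hh)
    exact absurd (a.trans c) (lt_irrefl _)

lemma reg_case (hb : SB W) (hu : ℵ₀ < #W) (hs : ∀ a : W, #(Iic a) < #W)
    (e : W → V) (he : range e = D) (h : Rigid G k A D) (hd : Disjoint A D)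
    (ih : ∀ (G : SimpleGraph V) (A D' : Set V), #D' < #W → Disjoint A D' → Rigid G k A D' →
      Ordb G k A D') : Ordb G k A D := by
  classical
  haveI : Nonempty W := mk_ne_zero_iff.1 (aleph0_pos.trans hu).ne'
  let I : W → Set V := fun c => e '' Iio c
  have ID : ∀ c, I c ⊆ D := fun c => he ▸ image_subset_range _ _
  have Is : ∀ c, #(I c) < #W := fun c =>
    mk_image_le.trans_lt ((mk_le_mk_of_subset Iio_subset_Iic_self).trans_lt (hs c))
  have Im : ∀ {a b}, a ≤ b → I a ⊆ I b := fun hab => image_mono (Iio_subset_Iio hab)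
  let B : (W → W) → W → Set V := fun g j => {v | Cl g j ∧ v ∈ I j}
  have BD : ∀ g j, B g j ⊆ D := fun g j v hv => ID j hv.2
  have BU : ∀ g, (⋃ j, B g j) = D := by
    intro g
    refine subset_antisymm (iUnion_subset (BD g)) (fun v hv => ?_)
    rw [← he] at hv
    obtain ⟨a, rfl⟩ := hv
    obtain ⟨c, c1, c2⟩ := club hb hu hs g a
    exact mem_iUnion.2 ⟨c, c2, a, c1, rfl⟩
  have Bl : ∀ g j c, (∀ x, x < c ↔ ∃ i, i < j ∧ Cl g i ∧ x < i) → low (B g) j = I c := by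
    intro g j c hc
    ext v
    constructor
    · rintro ⟨i, a, b, x, hx, rfl⟩
      exact ⟨x, (hc x).2 ⟨i, a, b, hx⟩, rfl⟩
    · rintro ⟨x, hx, rfl⟩
      obtain ⟨i, a, b, c⟩ := (hc x).1 hx
      exact ⟨i, a, b, x, c, rfl⟩
  have hβ : ∀ c, ∃ d, (∃ d, ¬ Ordb G k (A ∪ I c) (I d \ I c)) →
      ¬ Ordb G k (A ∪ I c) (I d \ I c) := by
    intro c
    by_cases hh : ∃ d, ¬ Ordb G k (A ∪ I c) (I d \ I c)
    · obtain ⟨d, hd⟩ := hh
      exact ⟨d, fun _ => hd⟩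
    · exact ⟨c, fun h => absurd h hh⟩
  choose β hβ using hβ
  have hG : ∀ j, ∃ G' ≤ G, Ordb G' (k + 1) (A ∪ low (B β) j) (B β j \ low (B β) j) ∧
      (Ordb G' k (A ∪ low (B β) j) (B β j \ low (B β) j) →
        Ordb G k (A ∪ low (B β) j) (B β j \ low (B β) j)) := by
    intro j
    by_cases hh : Ordb G k (A ∪ low (B β) j) (B β j \ low (B β) j)
    · exact ⟨⊥, bot_le, ⟨_, wit_bot _ _ _⟩, fun _ => hh⟩
    · have : ¬ Rigid G k (A ∪ low (B β) j) (B β j \ low (B β) j) := fun hr =>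
        hh (ih G _ _ ((mk_le_mk_of_subset (fun v hv => hv.1.2)).trans_lt (Is j))
          (disj_rel hd (BD β j)) hr)
      simp only [Rigid, not_forall] at this
      obtain ⟨G', g1, g2, g3⟩ := this
      exact ⟨G', g1, g2, fun h => absurd h g3⟩
  choose Gj g1 g2 g3 using hG
  obtain ⟨G', a1, a2, a3⟩ := glueR (B β) (fun j v hv => disjoint_right.1 hd (BD β j hv)) Gj g1 g2
  rw [BU] at a2
  obtain ⟨P, hP⟩ := h G' a1 a2
  have hη : ∀ x : W, ∃ b, ∀ w ∈ D, w ∈ P (e x) → w ∈ I b := by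
    intro x
    have : ∀ w : V, ∃ y : W, w ∈ D → e y = w := by
      intro w
      by_cases hw : w ∈ D
      · rw [← he] at hw
        obtain ⟨y, hy⟩ := hw
        exact ⟨y, fun _ => hy⟩
      · exact ⟨x, fun h => absurd h hw⟩
    choose idx hidx using this
    obtain ⟨b, hb'⟩ := hb (idx '' P (e x)) ((((hP.fin _).image _).lt_aleph0).trans hu)
    exact ⟨b, fun w hw hp => ⟨idx w, hb' _ ⟨w, hp, rfl⟩, hidx w hw⟩⟩
  choose η hη using hη
  let g : W → W := fun x => max (β x) (η x)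
  rw [← BU g]
  refine glueO (B g) (fun j v hv => disjoint_right.1 hd (BD g j hv)) (fun j => ?_)
  obtain ⟨c, c1, -, c3⟩ := prev g j
  rw [Bl g j c c3]
  suffices hh : Ordb G k (A ∪ I c) (I j \ I c) from
    hh.sub le_rfl (fun v hv => ⟨hv.1.2, hv.2⟩)
  by_contra hh
  have b1 := hβ c ⟨j, hh⟩
  have hne : {i | c < i ∧ Cl β i}.Nonempty := club hb hu hs β c
  obtain ⟨j1, ⟨j2, j3⟩, j4⟩ := wellFounded_lt.has_min _ hne
  have cβ : Cl β c := fun x hx => (le_max_left _ _).trans (c1 x hx)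
  have hl : low (B β) j1 = I c := by
    refine Bl β j1 c (fun x => ⟨fun hx => ⟨c, j2, cβ, hx⟩, fun ⟨i, a, b, d⟩ => d.trans_le ?_⟩)
    by_contra h5
    exact j4 i ⟨not_le.1 h5, b⟩ a
  have hc : ∀ v ∈ I c, ∀ w ∈ D, w ∈ P v → w ∈ I c := by
    rintro v ⟨x, hx, rfl⟩ w hw hp
    exact Im ((le_max_right _ _).trans (c1 x hx)) (hη x w hw hp)
  have := g3 j1 ⟨P, (hP.restr (ID c) hc).mono (by rw [hl]) (by
    rw [hl]; exact diff_subset_diff_left (BD β j1)) (fun v hv w hw => a3 j1 v hv w (by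
      rcases hw with (hw | hw) | hw
      · exact Or.inl hw
      · exact Or.inr (Or.inl hw)
      · exact Or.inr (Or.inr hw.1)))⟩
  rw [hl] at this
  exact b1 (this.sub le_rfl (fun v hv => ⟨⟨j3, Im (j3 c j2) hv.1⟩, hv.2⟩))

end club

lemma sb_of_regular {c : Cardinal.{u}} (hc : c.IsRegular) : SB c.ord.ToType := by
  intro s hs
  have e : #c.ord.ToType = c := mk_ord_toType c
  by_contra hh
  push Not at hh
  have h' : IsCofinal s := fun a => by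
    obtain ⟨x, hx, h⟩ := hh a
    exact ⟨x, hx, h⟩
  have := Order.cof_le h'
  rw [Ordinal.cof_toType, hc.cof_ord] at this
  rw [e] at hs
  exact absurd this (not_le.2 hs)

lemma small_Iic {c : Cardinal.{u}} (h : ℵ₀ ≤ c) (x : c.ord.ToType) :
    #(Iic x) < #c.ord.ToType :=
  mk_Iic_lt x (by simp) (by rw [mk_ord_toType]; exact h)

lemma mk_biUnion_le' {α : Type u} {μ : Cardinal.{u}} (hμ : ℵ₀ ≤ μ) (S : Set α) (f : α → Set V)
    (h1 : #S ≤ μ) (h2 : ∀ a ∈ S, #(f a) ≤ μ) : #(⋃ a ∈ S, f a) ≤ μ := by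
  refine (mk_biUnion_le f S).trans ?_
  exact (mul_le_mul' h1 (ciSup_le' (fun a : S => h2 a a.2))).trans (mul_eq_self hμ).le

lemma sc_aux {W : Type u} [LinearOrder W] [WellFoundedLT W] {μ : Cardinal.{u}} (hμ : ℵ₀ ≤ μ)
    (hb : SB W) (hsm : ∀ a : W, #(Iic a) < #W) (hW : #W = Order.succ μ)
    (h : ∀ D' ⊆ D, #D' ≤ Order.succ μ → Ordb G k A D') {X : Set V} (hX : X ⊆ D) (hs : #X ≤ μ) :
    ∃ Y : Set V, #Y ≤ μ ∧ X ⊆ Y ∧ Y ⊆ D ∧
      ∀ Z : Set V, #Z ≤ μ → Z ⊆ D → Ordb G k (A ∪ Y) (Z \ Y) := by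
  by_contra hcon
  push Not at hcon
  have step : ∀ Y : Set V, ∃ Z : Set V, #Y ≤ μ → X ⊆ Y → Y ⊆ D →
      #Z ≤ μ ∧ Z ⊆ D ∧ Y ⊆ Z ∧ ¬ Ordb G k (A ∪ Y) (Z \ Y) := by
    intro Y
    by_cases hY : #Y ≤ μ ∧ X ⊆ Y ∧ Y ⊆ D
    · obtain ⟨Z, z1, z2, z3⟩ := hcon Y hY.1 hY.2.1 hY.2.2
      refine ⟨Y ∪ Z, fun _ _ _ => ⟨(mk_union_le _ _).trans (add_le_of_le hμ hY.1 z1),
        union_subset hY.2.2 z2, subset_union_left, fun hh => z3 (hh.sub le_rfl ?_)⟩⟩
      exact diff_subset_diff_left subset_union_right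
    · exact ⟨∅, fun a b c => absurd ⟨a, b, c⟩ hY⟩
  choose z hz using step
  have hu : ℵ₀ < #W := hW ▸ hμ.trans_lt (Order.lt_succ μ)
  haveI : Nonempty W := mk_ne_zero_iff.1 (aleph0_pos.trans hu).ne'
  obtain ⟨F, hF⟩ : ∃ F : W → Set V, ∀ a, F a = z (X ∪ ⋃ b ∈ Iio a, F b) := by
    refine ⟨wellFounded_lt.fix (fun a f => z (X ∪ ⋃ b, ⋃ h : b < a, f b h)), fun a => ?_⟩
    rw [WellFounded.fix_eq]
    rfl
  let Y : W → Set V := fun a => X ∪ ⋃ b ∈ Iio a, F b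
  have hI : ∀ a : W, #(Iio a) ≤ μ := fun a => Order.lt_succ_iff.1
    (hW ▸ (mk_le_mk_of_subset Iio_subset_Iic_self).trans_lt (hsm a))
  have yinv : ∀ a, (∀ b < a, #(F b) ≤ μ ∧ F b ⊆ D) → #(Y a) ≤ μ ∧ X ⊆ Y a ∧ Y a ⊆ D := by
    intro a ih
    exact ⟨(mk_union_le _ _).trans (add_le_of_le hμ hs
      (mk_biUnion_le' hμ _ _ (hI a) (fun b hb => (ih b hb).1))), subset_union_left,
      union_subset hX (iUnion₂_subset (fun b hb => (ih b hb).2))⟩
  have inv : ∀ a, #(F a) ≤ μ ∧ F a ⊆ D := by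
    intro a
    induction a using WellFoundedLT.induction with
    | ind a ih =>
      obtain ⟨a1, a2, a3⟩ := yinv a ih
      obtain ⟨b1, b2, -, -⟩ := hz _ a1 a2 a3
      rw [hF]
      exact ⟨b1, b2⟩
  have inv2 : ∀ a, Y a ⊆ F a ∧ ¬ Ordb G k (A ∪ Y a) (F a \ Y a) := by
    intro a
    obtain ⟨a1, a2, a3⟩ := yinv a (fun b _ => inv b)
    obtain ⟨-, -, b1, b2⟩ := hz _ a1 a2 a3
    rw [hF]
    exact ⟨b1, b2⟩
  let U : Set V := ⋃ a ∈ (univ : Set W), F a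
  have hμ' : ℵ₀ ≤ Order.succ μ := hμ.trans (Order.le_succ μ)
  have FU : ∀ a, F a ⊆ U := fun a => subset_biUnion_of_mem (u := F) (mem_univ a)
  obtain ⟨P, hP⟩ := h U (iUnion₂_subset (fun b _ => (inv b).2))
    (mk_biUnion_le' hμ' _ _ (by simp [hW]) (fun a _ => (inv a).1.trans (Order.le_succ μ)))
  have : ∀ w : V, ∃ y : W, w ∈ U → w ∈ F y := by
    intro w
    by_cases hw : w ∈ U
    · obtain ⟨y, -, hy⟩ := mem_iUnion₂.1 hw
      exact ⟨y, fun _ => hy⟩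
    · exact ⟨Classical.arbitrary W, fun h => absurd h hw⟩
  choose idx hidx using this
  have hg : ∀ a : W, ∃ b, ∀ v ∈ F a, ∀ w ∈ P v, idx w < b := by
    intro a
    obtain ⟨b, hb'⟩ := hb (idx '' ⋃ v ∈ F a, P v) (by
      rw [hW, Order.lt_succ_iff]
      exact mk_image_le.trans (mk_biUnion_le' hμ _ _ (inv a).1
        (fun v _ => (hP.fin v).lt_aleph0.le.trans hμ)))
    exact ⟨b, fun v hv w hw => hb' _ ⟨w, mem_iUnion₂.2 ⟨v, hv, hw⟩, rfl⟩⟩
  choose g hg using hg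
  obtain ⟨c, c1, c2⟩ := club hb hu hsm g (Classical.arbitrary W)
  have hc : ∀ v ∈ Y c, ∀ w ∈ U, w ∈ P v → w ∈ Y c := by
    intro v hv w hw hp
    have : ∃ b < c, v ∈ F b := by
      rcases hv with hv | hv
      · exact ⟨_, c1, (inv2 _).1 (Or.inl hv)⟩
      · obtain ⟨b, b1, b2⟩ := mem_iUnion₂.1 hv
        exact ⟨b, b1, b2⟩
    obtain ⟨b, b1, b2⟩ := this
    exact Or.inr (mem_iUnion₂.2 ⟨idx w, (hg b v b2 w hp).trans_le (c2 b b1), hidx w hw⟩)
  exact (inv2 c).2 ⟨P, (hP.restr ((inv2 c).1.trans (FU c)) hc).mono le_rfl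
    (diff_subset_diff_left (FU c)) (fun _ _ _ _ h => h)⟩

lemma sc_big {μ : Cardinal.{u}} (hμ : ℵ₀ ≤ μ)
    (h : ∀ D' ⊆ D, #D' ≤ Order.succ μ → Ordb G k A D') {X : Set V} (hX : X ⊆ D) (hs : #X ≤ μ) :
    ∃ Y : Set V, #Y ≤ μ ∧ X ⊆ Y ∧ Y ⊆ D ∧
      ∀ Z : Set V, #Z ≤ μ → Z ⊆ D → Ordb G k (A ∪ Y) (Z \ Y) :=
  sc_aux hμ (sb_of_regular (isRegular_succ hμ)) (small_Iic (hμ.trans (Order.le_succ μ)))
    (mk_ord_toType _) h hX hs

lemma sing_case {S : Type u} [LinearOrder S] [WellFoundedLT S] [Nonempty S]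
    (hd : Disjoint A D) (X : S → Set V) (μ : S → Cardinal.{u}) (hμ : ∀ i, ℵ₀ ≤ μ i)
    (hS : ∀ i, #S ≤ μ i) (hm : Monotone μ) (hX : ∀ i, #(X i) ≤ μ i) (hXD : ∀ i, X i ⊆ D)
    (hU : D ⊆ ⋃ i, X i)
    (h : ∀ i, ∀ D' ⊆ D, #D' ≤ Order.succ (μ i) → Ordb G k A D') : Ordb G k A D := by
  have step : ∀ i, ∀ X : Set V, ∃ Y : Set V, X ⊆ D → #X ≤ μ i → #Y ≤ μ i ∧ X ⊆ Y ∧ Y ⊆ D ∧
      ∀ Z : Set V, #Z ≤ μ i → Z ⊆ D → Ordb G k (A ∪ Y) (Z \ Y) := by
    intro i X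
    by_cases hX : X ⊆ D ∧ #X ≤ μ i
    · obtain ⟨Y, hY⟩ := sc_big (hμ i) (h i) hX.1 hX.2
      exact ⟨Y, fun _ _ => hY⟩
    · exact ⟨∅, fun a b => absurd ⟨a, b⟩ hX⟩
  choose sc hsc using step
  have hpw : ∀ Y Z : Set V, ∃ P : V → Set V, (∀ v, (P v).Finite) ∧
      (Ordb G k (A ∪ Y) (Z \ Y) → Wit G k (A ∪ Y) (Z \ Y) P) := by
    intro Y Z
    by_cases hh : Ordb G k (A ∪ Y) (Z \ Y)
    · obtain ⟨P, hP⟩ := hh
      exact ⟨P, hP.fin, fun _ => hP⟩
    · exact ⟨fun _ => ∅, fun _ => finite_empty, fun h => absurd h hh⟩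
  choose pw pf hpw using hpw
  let T : (S → Set V) → (V → Set V) → S → Set V := fun Y Q i =>
    X i ∪ (⋃ j ∈ Iic i, Y j) ∪ ((⋃ v ∈ Y i, Q v) ∩ D)
  obtain ⟨Y, Q, Y0, Q0, Ys, Qs⟩ : ∃ (Y : ℕ → S → Set V) (Q : ℕ → V → Set V),
      (∀ i, Y 0 i = ∅) ∧ (∀ v, Q 0 v = ∅) ∧ (∀ n i, Y (n + 1) i = sc i (T (Y n) (Q n) i)) ∧
      ∀ n v, Q (n + 1) v = Q n v ∪ ⋃ i ∈ (Set.univ : Set S), pw (Y n i) (Y (n + 1) i) v := by
    let st : ℕ → (S → Set V) × (V → Set V) := fun n => Nat.rec (fun _ => ∅, fun _ => ∅)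
      (fun _ p => (fun i => sc i (T p.1 p.2 i),
        fun v => p.2 v ∪ ⋃ i ∈ (Set.univ : Set S), pw (p.1 i) (sc i (T p.1 p.2 i)) v)) n
    exact ⟨fun n => (st n).1, fun n => (st n).2, fun _ => rfl, fun _ => rfl, fun _ _ => rfl,
      fun _ _ => rfl⟩
  have Qc : ∀ i n v, #(Q n v) ≤ μ i := by
    intro i n v
    induction n with
    | zero => simp [Q0]
    | succ n ih =>
      rw [Qs]
      exact (mk_union_le _ _).trans (add_le_of_le (hμ i) ih (mk_biUnion_le' (hμ i) _ _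
        (by simpa using hS i) (fun j _ => (pf _ _ v).lt_aleph0.le.trans (hμ i))))
  have Tinv : ∀ n, (∀ i, #(Y n i) ≤ μ i ∧ Y n i ⊆ D) →
      ∀ i, T (Y n) (Q n) i ⊆ D ∧ #(T (Y n) (Q n) i) ≤ μ i := by
    intro n ih i
    refine ⟨union_subset (union_subset (hXD i) (iUnion₂_subset (fun j _ => (ih j).2)))
      inter_subset_right, ?_⟩
    refine (mk_union_le _ _).trans (add_le_of_le (hμ i) ((mk_union_le _ _).trans
      (add_le_of_le (hμ i) (hX i) ?_)) ?_)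
    · exact mk_biUnion_le' (hμ i) _ _ ((mk_set_le _).trans (hS i))
        (fun j hj => (ih j).1.trans (hm hj))
    · exact (mk_le_mk_of_subset inter_subset_left).trans
        (mk_biUnion_le' (hμ i) _ _ (ih i).1 (fun v _ => Qc i n v))
  have inv : ∀ n i, #(Y n i) ≤ μ i ∧ Y n i ⊆ D := by
    intro n
    induction n with
    | zero => intro i; simp [Y0]
    | succ n ih =>
      intro i
      obtain ⟨a, -, b, -⟩ := hsc i _ (Tinv n ih i).1 (Tinv n ih i).2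
      rw [Ys]
      exact ⟨a, b⟩
  have TY : ∀ n i, T (Y n) (Q n) i ⊆ Y (n + 1) i := fun n i => by
    rw [Ys]
    exact (hsc i _ (Tinv n (inv n) i).1 (Tinv n (inv n) i).2).2.1
  have YY : ∀ n i j, j ≤ i → Y n j ⊆ Y (n + 1) i := fun n i j hj v hv =>
    TY n i (Or.inl (Or.inr (mem_iUnion₂.2 ⟨j, hj, hv⟩)))
  have Ym : ∀ i, Monotone (fun n => Y n i) := fun i =>
    monotone_nat_of_le_succ (fun n => YY n i i le_rfl)
  have Qm : ∀ v, Monotone (fun n => Q n v) := fun v =>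
    monotone_nat_of_le_succ (fun n => by simp only [Qs]; exact subset_union_left)
  have ord : ∀ n i, Ordb G k (A ∪ Y n i) (Y (n + 1) i \ Y n i) := by
    intro n i
    cases n with
    | zero =>
      rw [Y0]
      simpa using h i _ (inv 1 i).2 ((inv 1 i).1.trans (Order.le_succ _))
    | succ n =>
      have := (hsc i _ (Tinv n (inv n) i).1 (Tinv n (inv n) i).2).2.2.2 _
        (inv (n + 2) i).1 (inv (n + 2) i).2
      rw [← Ys] at this
      exact this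
  let B : S → Set V := fun i => ⋃ n, Y (n + 1) i
  have BD : ∀ i, B i ⊆ D := fun i => iUnion_subset (fun n => (inv (n + 1) i).2)
  have hP : ∀ i, ∃ P, Wit G k A (B i) P ∧ ∀ v, ∃ n, P v ⊆ pw (Y n i) (Y (n + 1) i) v := by
    intro i
    refine glue (fun n => Y (n + 1) i)
      (fun j v hv => disjoint_right.1 hd ((inv (j + 1) i).2 hv)) _ (fun n => ?_)
    have : low (fun n => Y (n + 1) i) n = Y n i := by
      cases n with
      | zero => rw [low_zero, Y0]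
      | succ n => exact low_nat _ (fun n => YY (n + 1) i i le_rfl) n
    rw [this]
    exact hpw _ _ (ord n i)
  refine (glueO (G := G) (k := k) B (fun j v hv => disjoint_right.1 hd (BD j hv))
    (fun i => ?_)).sub le_rfl (fun v hv => ?_)
  · obtain ⟨P, p1, p2⟩ := hP i
    refine ⟨P, p1.restr ?_ ?_⟩
    · rintro v ⟨j, hj, hv⟩
      obtain ⟨n, hn⟩ := mem_iUnion.1 hv
      exact mem_iUnion.2 ⟨n + 1, YY (n + 1) i j hj.le hn⟩
    · rintro v ⟨j, hj, hv⟩ w hw hp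
      obtain ⟨m, hm⟩ := mem_iUnion.1 hv
      obtain ⟨n, hn⟩ := p2 v
      have a1 : w ∈ Q (n + 1) v := by
        rw [Qs]
        exact Or.inr (mem_iUnion₂.2 ⟨i, mem_univ _, hn hp⟩)
      have a2 : w ∈ Q (m + n + 1) v := Qm v (by omega) a1
      have a3 : v ∈ Y (m + n + 1) j := Ym j (by omega) hm
      exact ⟨j, hj, mem_iUnion.2 ⟨m + n + 1,
        TY (m + n + 1) j (Or.inr ⟨mem_iUnion₂.2 ⟨v, a3, a2⟩, BD i hw⟩)⟩⟩
  · obtain ⟨i, hi⟩ := mem_iUnion.1 (hU hv)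
    exact mem_iUnion.2 ⟨i, mem_iUnion.2 ⟨0, TY 0 i (Or.inl (Or.inl hi))⟩⟩

lemma step_case {W : Type u} [LinearOrder W] [WellFoundedLT W] (hu : ℵ₀ < #W)
    (hs : ∀ a : W, #(Iic a) < #W) (e : W → V) (he : range e = D) (h : Rigid G k A D)
    (hd : Disjoint A D)
    (ih : ∀ (G : SimpleGraph V) (A D' : Set V), #D' < #W → Disjoint A D' → Rigid G k A D' →
      Ordb G k A D') : Ordb G k A D := by
  by_cases hb : SB W
  · exact reg_case hb hu hs e he h hd ih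
  simp only [SB, not_forall, not_exists, not_lt] at hb
  obtain ⟨S, s1, s2⟩ := hb
  haveI : Nonempty W := mk_ne_zero_iff.1 (aleph0_pos.trans hu).ne'
  haveI : Nonempty S := by
    obtain ⟨x, hx, -⟩ := s2 (Classical.arbitrary W)
    exact ⟨⟨x, hx⟩⟩
  let μ : S → Cardinal.{u} := fun i => max (max ℵ₀ #S) #(Iic i.1)
  have m1 : ∀ i, ℵ₀ ≤ μ i := fun i => (le_max_left _ _).trans (le_max_left _ _)
  have m2 : ∀ i, #S ≤ μ i := fun i => (le_max_right _ _).trans (le_max_left _ _)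
  have m3 : ∀ i, μ i < #W := fun i => max_lt (max_lt hu s1) (hs _)
  have m4 : ∀ i, Order.succ (μ i) < #W := by
    intro i
    refine (Order.succ_le_of_lt (m3 i)).lt_of_ne (fun hh => ?_)
    have h1 : #(⋃ a ∈ S, Iic a) ≤ μ i := mk_biUnion_le' (m1 i) S _ (m2 i)
      (fun a _ => Order.lt_succ_iff.1 (hh ▸ hs a))
    have h2 : (⋃ a ∈ S, Iic a) = Set.univ := by
      refine eq_univ_of_forall (fun b => ?_)
      obtain ⟨x, hx, h⟩ := s2 b
      exact mem_iUnion₂.2 ⟨x, hx, h⟩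
    rw [h2, mk_univ] at h1
    exact absurd (m3 i) (not_lt.2 h1)
  refine sing_case hd (fun i : S => e '' Iic i.1) μ m1 m2 ?_
    (fun i => mk_image_le.trans (le_max_right _ _)) (fun i => he ▸ image_subset_range _ _) ?_
    (fun i D' a b => ih G A D' (b.trans_lt (m4 i)) (hd.mono_right a) (h.sub hd a))
  · intro i j hij
    exact max_le_max le_rfl (mk_le_mk_of_subset (Iic_subset_Iic.2 hij))
  · intro v hv
    rw [← he] at hv
    obtain ⟨b, rfl⟩ := hv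
    obtain ⟨x, hx, h⟩ := s2 b
    exact mem_iUnion.2 ⟨⟨x, hx⟩, b, h, rfl⟩

theorem main (k : ℕ) (c : Cardinal.{u}) : ∀ (G : SimpleGraph V) (A D : Set V), #D = c →
    Disjoint A D → Rigid G k A D → Ordb G k A D := by
  induction c using WellFoundedLT.induction with
  | ind c ih =>
    intro G A D hc hd h
    by_cases hu : c ≤ ℵ₀
    · exact h.ord_countable hd (le_aleph0_iff_set_countable.1 (hc ▸ hu))
    · have hu' := not_le.1 hu
      have e0 : #c.ord.ToType = c := mk_ord_toType c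
      obtain ⟨e⟩ := Cardinal.eq.1 (e0.trans hc.symm)
      refine step_case (W := c.ord.ToType) (by rwa [e0]) (small_Iic hu'.le)
        (fun x => (e x : V)) ?_ h hd (fun G A D' a b d => ih _ (by rwa [e0] at a) G A D' rfl b d)
      ext v
      constructor
      · rintro ⟨x, rfl⟩
        exact (e x).2
      · intro hv
        exact ⟨e.symm ⟨v, hv⟩, by simp⟩

end Pool.Agent.H.MP_279ba3_co
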